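import Pool.Agent.U685.IN.Stm

/-!
# Project IX (helper685), package DET: the deterministic part
-/

set_option autoImplicit false
open MeasureTheory ProbabilityTheory Filter Set
open scoped ENNReal Topology Pointwise

namespace Pool.Agent.U667.IX

open Pool.Agent.N662.FP
open Pool.Agent.U874.FP
open U874.FL (Fd)
open Pool.Agent.U685.IN

/-- the lattice points of a box in a strip -/
noncomputable def Str (p q M r : ℝ) : Finset V := by
  classical
  exact Finset.filter (fun y : V => |lat p q y| ≤ r)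
    ((Finset.Icc (-⌊M⌋) ⌊M⌋) ×ˢ (Finset.Icc (-⌊M⌋) ⌊M⌋))

lemma abs_le_floor {M : ℝ} {a : ℤ} : |(a : ℝ)| ≤ M ↔ a ∈ Finset.Icc (-⌊M⌋) ⌊M⌋ := by
  rw [Finset.mem_Icc, abs_le]
  constructor
  · rintro ⟨h1, h2⟩
    refine ⟨?_, Int.le_floor.2 h2⟩
    have : (-a : ℤ) ≤ ⌊M⌋ := Int.le_floor.2 (by push_cast; linarith)
    linarith
  · rintro ⟨h1, h2⟩
    have g2 : (a : ℝ) ≤ M := Int.le_floor.1 h2
    have g1 : ((-a : ℤ) : ℝ) ≤ M := Int.le_floor.1 (by linarith)
    push_cast at g1
    exact ⟨by linarith, g2⟩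

lemma mem_Str {p q M r : ℝ} {y : V} : y ∈ Str p q M r ↔ Bx M y ∧ |lat p q y| ≤ r := by
  classical
  unfold Str Bx
  rw [Finset.mem_filter, Finset.mem_product, abs_le_floor, abs_le_floor]

/-- splitting the cost of a path at a vertex -/
lemma split_cost {x : Sym2 V → ℝ} (hx : ∀ e, 0 ≤ x e) {n : ℕ} {P : ℕ → V} {a v : V}
    (h0 : P 0 = a) (hn : P n = v)
    (hs : ∀ i < n, |(P (i + 1)).1 - (P i).1| + |(P (i + 1)).2 - (P i).2| = 1)
    {i : ℕ} (hi : i ≤ n) :
    D x a (P i) + D x (P i) v ≤ ∑ j ∈ Finset.range n, x s(P j, P (j + 1)) := by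
  obtain ⟨k, rfl⟩ := Nat.exists_eq_add_of_le hi
  rw [Finset.sum_range_add]
  refine add_le_add ?_ ?_
  · refine csInf_le (cGE x hx a (P i)).2.1 ?_
    exact ⟨i, P, h0, rfl, fun j hj => hs j (by omega), rfl⟩
  · refine csInf_le (cGE x hx (P i) v).2.1 ?_
    refine ⟨k, fun j => P (i + j), rfl, hn, fun j hj => ?_, ?_⟩
    · exact hs (i + j) (by omega)
    · rfl

section geo

variable {p q m C : ℝ} {μ : Seminorm ℝ (ℝ × ℝ)}

lemma em_eq (hpq : p ^ 2 + q ^ 2 = 1) (a : V) :
    em a = ht p q a • ((p, q) : ℝ × ℝ) + lat p q a • ((-q, p) : ℝ × ℝ) := by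
  unfold Pool.Agent.N662.FP.em ht lat
  refine Prod.ext ?_ ?_
  · show (a.1 : ℝ) = (p * a.1 + q * a.2) * p + (p * a.2 - q * a.1) * (-q)
    linear_combination (-(a.1 : ℝ)) * hpq
  · show (a.2 : ℝ) = (p * a.1 + q * a.2) * q + (p * a.2 - q * a.1) * p
    linear_combination (-(a.2 : ℝ)) * hpq

lemma p_le (hpq : p ^ 2 + q ^ 2 = 1) : |p| ≤ 1 := by
  rw [abs_le]
  constructor <;> nlinarith [sq_nonneg q, sq_nonneg (p - 1), sq_nonneg (p + 1)]

lemma q_le (hpq : p ^ 2 + q ^ 2 = 1) : |q| ≤ 1 := p_le (by linarith : q ^ 2 + p ^ 2 = 1)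

lemma mu_le (hpq : p ^ 2 + q ^ 2 = 1) (hm : μ (p, q) = m) (hC0 : 0 < C)
    (hC : ∀ x : ℝ × ℝ, μ x ≤ C * max |x.1| |x.2|) (a : V) :
    μ (em a) ≤ |ht p q a| * m + |lat p q a| * C := by
  rw [em_eq hpq a]
  refine (map_add_le_add μ _ _).trans ?_
  rw [map_smul_eq_mul, map_smul_eq_mul, Real.norm_eq_abs, Real.norm_eq_abs, hm]
  have h1 : μ (-q, p) ≤ C := by
    refine (hC _).trans ?_
    have : max |(-q)| |p| ≤ 1 := max_le (by rw [abs_neg]; exact q_le hpq) (p_le hpq)
    show C * max |(-q)| |p| ≤ C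
    nlinarith
  have := mul_le_mul_of_nonneg_left h1 (abs_nonneg (lat p q a))
  linarith

lemma ht_near (hpq : p ^ 2 + q ^ 2 = 1) {t : ℝ} {v : V} (h1 : |(v.1 : ℝ) - t * p| ≤ 1 / 2)
    (h2 : |(v.2 : ℝ) - t * q| ≤ 1 / 2) : |ht p q v - t| ≤ 1 ∧ |lat p q v| ≤ 1 := by
  have hp := p_le hpq
  have hq := q_le hpq
  have key : ∀ a b x y : ℝ, |a| ≤ 1 → |b| ≤ 1 → |x| ≤ 1 / 2 → |y| ≤ 1 / 2 →
      |a * x + b * y| ≤ 1 := by
    intro a b x y ha hb hx hy
    refine (abs_add_le _ _).trans ?_
    rw [abs_mul, abs_mul]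
    have := mul_le_mul ha hx (abs_nonneg _) zero_le_one
    have := mul_le_mul hb hy (abs_nonneg _) zero_le_one
    linarith
  constructor
  · have e : ht p q v - t = p * ((v.1 : ℝ) - t * p) + q * ((v.2 : ℝ) - t * q) := by
      unfold ht
      linear_combination t * hpq
    rw [e]
    exact key _ _ _ _ hp hq h1 h2
  · have e : lat p q v = (-q) * ((v.1 : ℝ) - t * p) + p * ((v.2 : ℝ) - t * q) := by
      unfold lat
      ring
    rw [e]
    exact key _ _ _ _ (by rwa [abs_neg]) hp h1 h2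

lemma mu_near (hm : μ (p, q) = m) (hC0 : 0 < C)
    (hC : ∀ x : ℝ × ℝ, μ x ≤ C * max |x.1| |x.2|) {t : ℝ} (ht0 : 0 ≤ t) {v : V}
    (h1 : |(v.1 : ℝ) - t * p| ≤ 1 / 2) (h2 : |(v.2 : ℝ) - t * q| ≤ 1 / 2) :
    |μ (em v) - m * t| ≤ C := by
  have e : μ (t • ((p, q) : ℝ × ℝ)) = m * t := by
    rw [map_smul_eq_mul, Real.norm_eq_abs, abs_of_nonneg ht0, hm, mul_comm]
  rw [← e]
  refine (abs_sub_map_le_sub μ _ _).trans ((hC _).trans ?_)
  have : max |(em v - t • ((p, q) : ℝ × ℝ)).1| |(em v - t • ((p, q) : ℝ × ℝ)).2| ≤ 1 :=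
    max_le (by
      show |(v.1 : ℝ) - t * p| ≤ 1
      linarith) (by
      show |(v.2 : ℝ) - t * q| ≤ 1
      linarith)
  nlinarith

end geo

lemma ev_small {s : ℝ} (hs : s < 1) {c : ℝ} (hc : 0 < c) : ∀ᶠ t : ℝ in atTop, t ^ s ≤ c * t := by
  have h := (tendsto_rpow_neg_atTop (y := 1 - s) (by linarith)).eventually_le_const hc
  filter_upwards [h, eventually_gt_atTop 0] with t h1 h2
  have e : t ^ s = t ^ (-(1 - s)) * t := by
    rw [← Real.rpow_add_one h2.ne']
    congr 1
    ring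
  rw [e]
  exact mul_le_mul_of_nonneg_right h1 h2.le

lemma ht_sub (p q : ℝ) (a b : V) : ht p q (a - b) = ht p q a - ht p q b := by
  unfold ht
  rw [Prod.fst_sub, Prod.snd_sub]
  push_cast
  ring

lemma lat_sub (p q : ℝ) (a b : V) : lat p q (a - b) = lat p q a - lat p q b := by
  unfold lat
  rw [Prod.fst_sub, Prod.snd_sub]
  push_cast
  ring

theorem t_DET : S_PATH2 → S_DET := by
  intro HP μ hμ p q m hT κ δ hκ1 hκ2 hδ0 hδ1
  obtain ⟨c, C, hc, hC0, hcC⟩ := cNORM μ hμ
  have hC := fun x => (hcC x).2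
  have hpq := hT.unit
  have hm := hT.val
  have hm0 := hT.pos
  have hinv : 0 < 2 / m := by positivity
  refine ⟨200 * (m + 1) + 2 / m + C + 4, by linarith, ?_⟩
  set K : ℝ := 200 * (m + 1) + 2 / m + C + 4 with hK
  have hK4 : 4 ≤ K := by linarith
  filter_upwards [eventually_ge_atTop 20, eventually_ge_atTop (C + 1),
    eventually_ge_atTop (2 * C / m), eventually_ge_atTop ((2 * C + 3 * m) / (m / 10)),
    ev_small (s := 1 - κ + δ) (by linarith) one_pos,
    ev_small (s := 1 - κ + δ) (by linarith) (c := m / 50) (by positivity),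
    ev_small (s := 1 - κ / 2 + δ) (by linarith) (c := m / 50 / C) (by positivity),
    (tendsto_rpow_atTop (y := 1 - κ + δ) (by linarith)).eventually_ge_atTop (C + 1 + m)] with
    t t20 tC tCm tCm3 hS1 hS2 hl1 hS3
  have hlge : 1 ≤ t ^ (1 - κ / 2 + δ) := Real.one_le_rpow (by linarith) (by linarith)
  set S : ℝ := t ^ (1 - κ + δ) with hSdef
  set l : ℝ := t ^ (1 - κ / 2 + δ) with hldef
  have t0 : 0 < t := by linarith
  have hCm : C ≤ m * t / 2 := by
    rw [div_le_iff₀ hm0] at tCm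
    linarith
  have hCm3 : 2 * C + 3 * m ≤ m * t / 10 := by
    rw [div_le_iff₀ (by positivity)] at tCm3
    linarith
  have hl2 : l * C ≤ m / 50 * t := by
    have := mul_le_mul_of_nonneg_right hl1 hC0.le
    have e : m / 50 / C * t * C = m / 50 * t := by
      field_simp
    rw [e] at this
    exact this
  have hKt : 200 * (m + 1) * t + C * t + 4 * t ≤ K * t := by
    have : 0 ≤ 2 / m * t := by positivity
    rw [hK]
    nlinarith
  have hmt : 0 < m * t := by positivity
  have hCt : 0 < C * t := by positivity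
  -- the point
  obtain ⟨v, hv1, hv2⟩ : ∃ v : V, |(v.1 : ℝ) - t * p| ≤ 1 / 2 ∧ |(v.2 : ℝ) - t * q| ≤ 1 / 2 := by
    refine ⟨(round (t * p), round (t * q)), ?_, ?_⟩
    · rw [abs_sub_comm]
      exact abs_sub_round _
    · rw [abs_sub_comm]
      exact abs_sub_round _
  obtain ⟨hhv, hlv⟩ := ht_near hpq hv1 hv2
  have hmv := mu_near hm hC0 hC t0.le hv1 hv2
  rw [abs_le] at hhv hmv
  have hvbox : |(v.1 : ℝ)| ≤ t + 1 ∧ |(v.2 : ℝ)| ≤ t + 1 := by
    have hp := p_le hpq
    have hq := q_le hpq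
    have g1 : |t * p| ≤ t := by
      rw [abs_mul, abs_of_pos t0]
      nlinarith
    have g2 : |t * q| ≤ t := by
      rw [abs_mul, abs_of_pos t0]
      nlinarith
    have g3 := abs_sub_abs_le_abs_sub (v.1 : ℝ) (t * p)
    have g4 := abs_sub_abs_le_abs_sub (v.2 : ℝ) (t * q)
    constructor <;> linarith
  have hK4t : 4 * t ≤ K * t := mul_le_mul_of_nonneg_right hK4 t0.le
  have hvB : Bx (K * t) v := ⟨by linarith [hvbox.1], by linarith [hvbox.2]⟩
  have big : ∀ {y : V}, Bx (K * t) y → Bx (100 * K * t) y := by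
    intro y hy
    have : K * t ≤ 100 * K * t := by linarith
    exact ⟨hy.1.trans this, hy.2.trans this⟩
  have h0B : Bx (100 * K * t) (0 : V) := by
    have : 0 ≤ 100 * K * t := by positivity
    constructor
    · show |((0 : ℤ) : ℝ)| ≤ _
      simpa using this
    · show |((0 : ℤ) : ℝ)| ≤ _
      simpa using this
  refine ⟨v, hvB, ?_, ?_, Str p q (K * t) (2 * l), ?_, ?_⟩
  · -- t ≤ K μ
    have g1 : m * t / 2 ≤ μ (em v) := by linarith
    have g2 : 2 / m * (m * t / 2) = t := by field_simp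
    have g3 : 2 / m ≤ K := by
      rw [hK]
      linarith
    calc t = 2 / m * (m * t / 2) := g2.symm
      _ ≤ K * μ (em v) := mul_le_mul g3 g1 (by positivity) (by linarith)
  · have : 0 < m * t := hmt
    linarith
  · -- cardinality
    have h := U874.FL.strip hpq (Str p q (K * t) (2 * l)) (M := K * t) (r := 2 * l)
      (by positivity) (by linarith) (fun y hy => (mem_Str.1 hy).1) (fun y hy => (mem_Str.1 hy).2)
    refine h.trans ?_
    have g1 : 2 * (K * t) + 1 ≤ 3 * (K * t) := by linarith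
    have g2 : 4 * (2 * l) + 1 ≤ 9 * l := by linarith
    calc (2 * (K * t) + 1) * (4 * (2 * l) + 1) ≤ 3 * (K * t) * (9 * l) :=
          mul_le_mul g1 g2 (by linarith) (by positivity)
      _ = 27 * (K * (t * l)) := by ring
      _ ≤ 100 * (K * (t * l)) := by
          have : 0 ≤ K * (t * l) := by positivity
          linarith
      _ = 100 * K * (t * l) := by ring
  · intro x hx H1 H2 H3 H4 H5 ε hε0 hε1
    have ha : D x 0 v < μ (em v) + S := by
      have := H1 0 v h0B (big hvB)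
      rwa [sub_zero] at this
    -- the configuration
    have hconf : Conf x p q (t / 4) (3 * t / 4) v (Str p q (K * t) (2 * l)) := by
      intro n P hP0 hPn hst hcost i hi hy1 hy2
      have hsp := split_cost hx hP0 hPn hst hi
      have hsum : D x 0 (P i) + D x (P i) v < μ (em v) + S + 1 := by linarith
      have hn1 : 0 ≤ D x (P i) v := (cGE x hx (P i) v).2.2.1
      have hbox : Bx (K * t / 2) (P i) := by
        by_contra hb
        have g1 := H3 (P i) hb
        have g2 : 4 * (m * t) + 4 * t ≤ K * t / 2 / 25 := by linarith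
        linarith
      have hboxK : Bx (K * t) (P i) := by
        have : K * t / 2 ≤ K * t := by linarith
        exact ⟨hbox.1.trans this, hbox.2.trans this⟩
      rw [mem_Str]
      refine ⟨hboxK, ?_⟩
      by_contra hlat
      rw [not_le] at hlat
      have g1 := H4 (P i) hboxK (by linarith) (by linarith) (by linarith)
      rw [one_smul, zero_add] at g1
      have hb2 : Bx (K * t) (v - P i) := by
        have e1 : (((v - P i).1 : ℤ) : ℝ) = (v.1 : ℝ) - (P i).1 := by
          rw [Prod.fst_sub]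
          push_cast
          ring
        have e2 : (((v - P i).2 : ℤ) : ℝ) = (v.2 : ℝ) - (P i).2 := by
          rw [Prod.snd_sub]
          push_cast
          ring
        have k1 := abs_sub (v.1 : ℝ) (P i).1
        have k2 := abs_sub (v.2 : ℝ) (P i).2
        refine ⟨?_, ?_⟩
        · rw [e1]
          linarith [hbox.1, hvbox.1]
        · rw [e2]
          linarith [hbox.2, hvbox.2]
      have hlat2 : l ≤ |lat p q (v - P i)| := by
        rw [lat_sub]
        have k := abs_sub_abs_le_abs_sub (lat p q (P i)) (lat p q v)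
        rw [abs_sub_comm] at k
        linarith
      have g2 := H5 (v - P i) hb2 (by rw [ht_sub]; linarith) (by rw [ht_sub]; linarith) hlat2
      have e3 : v + (-1 : ℤ) • (v - P i) = P i := by
        rw [neg_one_zsmul]
        abel
      rw [e3, ht_sub, cREV x v (P i), mul_sub] at g2
      have k5 : m * (t - 1) ≤ m * ht p q v := mul_le_mul_of_nonneg_left (by linarith) hm0.le
      linarith
    obtain ⟨a, haS, b, hbS, ha1, ha2, hb1, hb2, hfin⟩ := HP x hx p q hpq v (t / 4) (3 * t / 4)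
      (Str p q (K * t) (2 * l)) (by linarith) (by linarith) (by linarith) hconf ε hε0 hε1
    obtain ⟨haB, hal⟩ := mem_Str.1 haS
    obtain ⟨hbB, hbl⟩ := mem_Str.1 hbS
    have q1 : D x 0 a < μ (Pool.Agent.N662.FP.em a) + S := by
      have := H1 0 a h0B (big haB)
      rwa [sub_zero] at this
    have q2 := H1 b v (big hbB) (big hvB)
    have q3 : μ (Pool.Agent.N662.FP.em a) ≤ m * (t / 4 + 1) + 2 * (l * C) := by
      refine (mu_le hpq hm hC0 hC a).trans ?_
      have k1 : |ht p q a| ≤ t / 4 + 1 := by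
        rw [abs_le]
        constructor <;> linarith
      have k2 := mul_le_mul_of_nonneg_right k1 hm0.le
      have k3 := mul_le_mul_of_nonneg_right hal hC0.le
      linarith
    have q4 : μ (Pool.Agent.N662.FP.em (v - b)) ≤ m * (t / 4 + 2) + (2 * (l * C) + C) := by
      refine (mu_le hpq hm hC0 hC (v - b)).trans ?_
      have k1 : |ht p q (v - b)| ≤ t / 4 + 2 := by
        rw [ht_sub, abs_le]
        constructor <;> linarith
      have k4 : |lat p q (v - b)| ≤ 2 * l + 1 := by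
        rw [lat_sub]
        have := abs_sub (lat p q v) (lat p q b)
        linarith
      have k2 := mul_le_mul_of_nonneg_right k1 hm0.le
      have k3 := mul_le_mul_of_nonneg_right k4 hC0.le
      linarith
    have q5 := cTRI x hx 0 a v
    have q6 := cTRI x hx a b v
    have q7 : m / 4 * t ≤ D x a b := by linarith
    have q8 := mul_le_mul_of_nonneg_left q7 hε0
    linarith

end Pool.Agent.U667.IX
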